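import Pool.Agent.FU3.Stmts

/-!
# Squad FU3, row DTR: elementary facts on decision trees
-/

set_option autoImplicit false

open Finset

namespace Pool.Agent.FU3.H48

open Pool.Agent.FUR Pool.Agent.FU2 Pool.Agent.FU3

variable {N : ℕ}

theorem dt_not (t : ℕ) (f : BF N) (h : Dt t f) : Dt t fun x => !(f x) := by
  induction t generalizing f with
  | zero =>
    obtain ⟨b, hb⟩ := h
    exact ⟨!b, fun x => by show (!(f x)) = !b; rw [hb x]⟩
  | succ t ih =>
    rcases h with ⟨b, hb⟩ | ⟨v, hv⟩
    · exact Or.inl ⟨!b, fun x => by show (!(f x)) = !b; rw [hb x]⟩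
    · exact Or.inr ⟨v, fun b => ih _ (hv b)⟩

theorem dt_succ (t : ℕ) (f : BF N) (h : Dt t f) : Dt (t + 1) f := by
  induction t generalizing f with
  | zero => exact Or.inl h
  | succ t ih =>
    rcases h with h | ⟨v, hv⟩
    · exact Or.inl h
    · exact Or.inr ⟨v, fun b => ih _ (hv b)⟩

theorem dt_mono {t u : ℕ} (f : BF N) (htu : t ≤ u) (h : Dt t f) : Dt u f := by
  induction u, htu using Nat.le_induction with
  | base => exact h
  | succ u _ ih => exact dt_succ u f ih

theorem apl_update {r : RS N} {v : Fin N} (hv : r v = none) (x : Fin N → Bool) (b : Bool) :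
    apl r (Function.update x v b) = Function.update (apl r x) v b := by
  funext w
  by_cases hw : w = v
  · subst hw
    simp [apl, hv]
  · simp [apl, Function.update_of_ne hw]

theorem rst_res {r : RS N} {v : Fin N} (hv : r v = none) (f : BF N) (b : Bool) :
    rst (res r f) v b = res r (rst f v b) := by
  funext x
  simp only [rst, res]
  rw [apl_update hv]

theorem res_some {r : RS N} {v : Fin N} {c : Bool} (hv : r v = some c) (f : BF N) :
    res r f = res r (rst f v c) := by
  funext x
  simp only [rst, res]
  congr 1
  have h : apl r x v = c := by simp [apl, hv]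
  conv_lhs => rw [← Function.update_eq_self v (apl r x), h]

theorem dt_res (t : ℕ) (f : BF N) (r : RS N) (h : Dt t f) : Dt t (res r f) := by
  induction t generalizing f with
  | zero =>
    obtain ⟨b, hb⟩ := h
    exact ⟨b, fun x => hb _⟩
  | succ t ih =>
    rcases h with ⟨b, hb⟩ | ⟨v, hv⟩
    · exact Or.inl ⟨b, fun x => hb _⟩
    · rcases hr : r v with _ | c
      · refine Or.inr ⟨v, fun b => ?_⟩
        rw [rst_res hr]
        exact ih _ (hv b)
      · rw [res_some hr]
        exact dt_succ t _ (ih _ (hv c))

theorem dn_iff (F : List (RS N)) (x : Fin N → Bool) : dn F x = true ↔ ∃ t ∈ F, tv t x = true := by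
  simp only [dn, List.any_eq_true]

theorem tv_iff (t : RS N) (x : Fin N → Bool) :
    tv t x = true ↔ ∀ v, t v = none ∨ t v = some (x v) := by
  simp only [tv, decide_eq_true_eq]

/-- terms of a constant -/
theorem dn_const (b : Bool) : ∃ F : List (RS N), (∀ a ∈ F, (supp a).card = 0) ∧
    ∀ x, dn F x = b := by
  cases b with
  | false => exact ⟨[], by simp, fun x => rfl⟩
  | true =>
    refine ⟨[fun _ => none], ?_, fun x => ?_⟩
    · intro a ha
      rw [List.mem_singleton] at ha
      rw [ha]
      simp [supp]
    · rw [dn_iff]
      exact ⟨_, List.mem_singleton.2 rfl, by rw [tv_iff]; intro v; exact Or.inl rfl⟩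

/-- the terms of one branch -/
def br (F : List (RS N)) (v : Fin N) (b : Bool) : List (RS N) :=
  (F.filter fun t => decide (t v ≠ some (!b))).map fun t => Function.update t v (some b)

theorem br_card {F : List (RS N)} {v : Fin N} {b : Bool} {k : ℕ}
    (h : ∀ a ∈ F, (supp a).card ≤ k) : ∀ a ∈ br F v b, (supp a).card ≤ k + 1 := by
  intro a ha
  unfold br at ha
  rw [List.mem_map] at ha
  obtain ⟨t, ht, rfl⟩ := ha
  have ht' := (List.mem_filter.1 ht).1
  have hsub : supp (Function.update t v (some b)) ⊆ insert v (supp t) := by
    intro w hw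
    rw [Finset.mem_insert]
    by_cases hwv : w = v
    · exact Or.inl hwv
    · right
      simp only [supp, Finset.mem_filter, Finset.mem_univ, true_and] at hw ⊢
      rwa [Function.update_of_ne hwv] at hw
  exact (Finset.card_le_card hsub).trans ((Finset.card_insert_le _ _).trans
    (Nat.succ_le_succ (h t ht')))

theorem br_dn (F : List (RS N)) (v : Fin N) (b : Bool) (x : Fin N → Bool) :
    dn (br F v b) x = true ↔ x v = b ∧ dn F x = true := by
  rw [dn_iff, dn_iff]
  constructor
  · rintro ⟨a, ha, hax⟩
    unfold br at ha
    rw [List.mem_map] at ha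
    obtain ⟨t, ht, rfl⟩ := ha
    obtain ⟨ht1, ht2⟩ := List.mem_filter.1 ht
    rw [decide_eq_true_eq] at ht2
    rw [tv_iff] at hax
    have hb : x v = b := by
      have h := hax v
      rw [Function.update_self] at h
      rcases h with h | h
      · exact absurd h (by simp)
      · exact (Option.some.inj h).symm
    refine ⟨hb, t, ht1, ?_⟩
    rw [tv_iff]
    intro w
    by_cases hw : w = v
    · subst hw
      rw [hb]
      rcases h : t w with _ | c
      · exact Or.inl rfl
      · right
        rw [h] at ht2
        congr 1
        cases c <;> cases b <;> simp_all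
    · have h := hax w
      rwa [Function.update_of_ne hw] at h
  · rintro ⟨hb, t, ht, htx⟩
    rw [tv_iff] at htx
    refine ⟨Function.update t v (some b), ?_, ?_⟩
    · unfold br
      rw [List.mem_map]
      refine ⟨t, List.mem_filter.2 ⟨ht, ?_⟩, rfl⟩
      rw [decide_eq_true_eq]
      intro h
      rcases htx v with h' | h'
      · rw [h] at h'
        exact absurd h' (by simp)
      · rw [h, hb] at h'
        cases b <;> simp at h'
    · rw [tv_iff]
      intro w
      by_cases hw : w = v
      · subst hw
        rw [Function.update_self, hb]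
        exact Or.inr rfl
      · rw [Function.update_of_ne hw]
        exact htx w

theorem dt_dn (t : ℕ) (f : BF N) (h : Dt t f) : ∃ F : List (RS N),
    (∀ a ∈ F, (supp a).card ≤ t) ∧ ∀ x, dn F x = f x := by
  induction t generalizing f with
  | zero =>
    obtain ⟨b, hb⟩ := h
    obtain ⟨F, hF, hF'⟩ := dn_const (N := N) b
    exact ⟨F, fun a ha => (hF a ha).le, fun x => by rw [hF', hb]⟩
  | succ t ih =>
    rcases h with ⟨b, hb⟩ | ⟨v, hv⟩
    · obtain ⟨F, hF, hF'⟩ := dn_const (N := N) b
      exact ⟨F, fun a ha => by rw [hF a ha]; exact Nat.zero_le _, fun x => by rw [hF', hb]⟩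
    · obtain ⟨F, hF, hF'⟩ := ih _ (hv true)
      obtain ⟨G, hG, hG'⟩ := ih _ (hv false)
      refine ⟨br F v true ++ br G v false, ?_, fun x => ?_⟩
      · intro a ha
        rw [List.mem_append] at ha
        rcases ha with ha | ha
        · exact br_card hF a ha
        · exact br_card hG a ha
      · have happ : dn (br F v true ++ br G v false) x =
            (dn (br F v true) x || dn (br G v false) x) := by
          simp only [dn, List.any_append]
        rw [happ, Bool.eq_iff_iff, Bool.or_eq_true, br_dn, br_dn, hF', hG']
        simp only [rst]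
        have hup : ∀ c : Bool, x v = c → Function.update x v c = x := by
          intro c hc
          rw [← hc]
          exact Function.update_eq_self v x
        constructor
        · rintro (⟨h1, h2⟩ | ⟨h1, h2⟩)
          · rwa [hup _ h1] at h2
          · rwa [hup _ h1] at h2
        · intro h
          rcases hx : x v with _ | _
          · right
            refine ⟨rfl, ?_⟩
            rwa [hup _ hx]
          · left
            refine ⟨rfl, ?_⟩
            rwa [hup _ hx]

theorem dtr : DTRStmt :=
  ⟨fun _ t f h => dt_not t f h, fun _ t f r h => dt_res t f r h,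
    fun _ _ _ f htu h => dt_mono f htu h, fun _ t f h => dt_dn t f h⟩

end Pool.Agent.FU3.H48
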