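import Pool.Agent.FU3.Stmts

/-!
# Squad FU3, row SWX: simultaneous switching
-/

set_option autoImplicit false

open Finset

namespace Pool.Agent.FU3.H48

open Pool.Agent.FUR Pool.Agent.FU2 Pool.Agent.FU3

theorem choose_iter {n l : ℕ} (hl : l ≤ n) (s : ℕ) (hs : s ≤ l) :
    n.choose (l - s) * (n - l) ^ s ≤ n.choose l * l ^ s := by
  induction s with
  | zero => simp
  | succ s ih =>
    have ih := ih (by omega)
    obtain ⟨k, hk⟩ : ∃ k, l - s = k + 1 := ⟨l - s - 1, by omega⟩
    have hk' : l - (s + 1) = k := by omega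
    rw [hk']
    rw [hk] at ih
    have h1 := Nat.choose_succ_right_eq n k
    have h2 : n.choose k * (n - l) ≤ n.choose (k + 1) * l := by
      calc n.choose k * (n - l) ≤ n.choose k * (n - k) := Nat.mul_le_mul_left _ (by omega)
        _ = n.choose (k + 1) * (k + 1) := h1.symm
        _ ≤ n.choose (k + 1) * l := Nat.mul_le_mul_left _ (by omega)
    calc n.choose k * (n - l) ^ (s + 1) = (n.choose k * (n - l)) * (n - l) ^ s := by ring
      _ ≤ (n.choose (k + 1) * l) * (n - l) ^ s := Nat.mul_le_mul_right _ h2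
      _ = (n.choose (k + 1) * (n - l) ^ s) * l := by ring
      _ ≤ (n.choose l * l ^ s) * l := Nat.mul_le_mul_right _ ih
      _ = n.choose l * l ^ (s + 1) := by ring

theorem swx (enp : ENPStmt) (swe : SWEStmt) (swc : SWCStmt) (cnt : CNTStmt) : SWXStmt := by
  classical
  intro N T l m r₀ F hT hl hn hm hw
  by_contra hcon
  push Not at hcon
  obtain ⟨n, hn0⟩ : ∃ n, n = (stars r₀).card := ⟨_, rfl⟩
  rw [← hn0] at hn
  have hTl : T ≤ T * l := Nat.le_mul_of_pos_right _ hl
  have hlT : l ≤ T * l := Nat.le_mul_of_pos_left _ hT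
  have hn' : 64 * (T * l) ≤ n := by rw [← mul_assoc]; exact hn
  have hln : l ≤ n := by omega
  have hcode : ∀ r, Ext r₀ r → (stars r).card = l →
      ∃ i, ∃ r', Enc (F i) (T + 1) r r' ∧ Ext r₀ r' ∧ (stars r').card + (T + 1) = l := by
    intro r h1 h2
    obtain ⟨i, hi⟩ := hcon r h1 h2
    obtain ⟨r', hr'⟩ := swe N (F i) (T + 1) r (by omega) hi
    obtain ⟨h3, h4⟩ := enp N (F i) (T + 1) r r' hr'
    refine ⟨i, r', hr', fun v hv => ?_, by rw [h4, h2]⟩
    have h5 := h1 v hv
    have h6 := h3 v (by rw [h5]; exact hv)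
    rw [h6, h5]
  have hA := cnt N r₀ l (by rw [← hn0]; exact hln)
  rw [← hn0] at hA
  obtain ⟨A, hAdef⟩ : ∃ A : Finset (RS N), A = univ.filter fun r => Ext r₀ r ∧
    (stars r).card = l := ⟨_, rfl⟩
  have hAcard : A.card = n.choose l * 2 ^ (n - l) := by
    rw [← hA, ← Set.ncard_coe_finset]
    congr 1
    ext r
    rw [hAdef]
    simp
  have hpos : 0 < n.choose l * 2 ^ (n - l) :=
    Nat.mul_pos (Nat.choose_pos hln) (pow_pos (by norm_num) _)
  have hs : T + 1 ≤ l := by
    have : A.Nonempty := by rw [← Finset.card_pos, hAcard]; exact hpos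
    obtain ⟨r, hr⟩ := this
    rw [hAdef, Finset.mem_filter] at hr
    obtain ⟨i, r', -, -, h⟩ := hcode r hr.2.1 hr.2.2
    omega
  have hB := cnt N r₀ (l - (T + 1)) (by rw [← hn0]; omega)
  rw [← hn0] at hB
  obtain ⟨B, hBdef⟩ : ∃ B : Finset (RS N), B = univ.filter fun r => Ext r₀ r ∧
    (stars r).card = l - (T + 1) := ⟨_, rfl⟩
  have hBcard : B.card = n.choose (l - (T + 1)) * 2 ^ (n - (l - (T + 1))) := by
    rw [← hB, ← Set.ncard_coe_finset]
    congr 1
    ext r
    rw [hBdef]
    simp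
  have hsub : A ⊆ (univ : Finset (Fin m)).biUnion fun i => B.biUnion fun r' =>
      univ.filter fun r => Enc (F i) (T + 1) r r' := by
    intro r hr
    rw [hAdef, Finset.mem_filter] at hr
    obtain ⟨i, r', h1, h2, h3⟩ := hcode r hr.2.1 hr.2.2
    rw [Finset.mem_biUnion]
    refine ⟨i, Finset.mem_univ _, ?_⟩
    rw [Finset.mem_biUnion]
    refine ⟨r', ?_, by rw [Finset.mem_filter]; exact ⟨Finset.mem_univ _, h1⟩⟩
    rw [hBdef, Finset.mem_filter]
    exact ⟨Finset.mem_univ _, h2, by omega⟩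
  have hcard : A.card ≤ m * (B.card * (4 * T) ^ (T + 1)) := by
    refine (Finset.card_le_card hsub).trans (Finset.card_biUnion_le.trans ?_)
    have h1 : ∀ i ∈ (univ : Finset (Fin m)), (B.biUnion fun r' =>
        univ.filter fun r => Enc (F i) (T + 1) r r').card ≤ B.card * (4 * T) ^ (T + 1) := by
      intro i _
      refine Finset.card_biUnion_le.trans ?_
      have h2 : ∀ r' ∈ B, (univ.filter fun r => Enc (F i) (T + 1) r r').card ≤
          (4 * T) ^ (T + 1) := by
        intro r' _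
        have h3 := swc N (F i) T (T + 1) r' hT (hw i)
        rw [← Set.ncard_coe_finset]
        refine le_trans (le_of_eq ?_) h3
        congr 1
        ext r
        simp
      refine (Finset.sum_le_sum h2).trans ?_
      rw [Finset.sum_const, smul_eq_mul]
    refine (Finset.sum_le_sum h1).trans ?_
    rw [Finset.sum_const, smul_eq_mul, Finset.card_univ, Fintype.card_fin]
  rw [hAcard, hBcard] at hcard
  have hexp : n - (l - (T + 1)) = (n - l) + (T + 1) := by omega
  rw [hexp, pow_add] at hcard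
  have hch := choose_iter hln (T + 1) hs
  obtain ⟨s, hsd⟩ : ∃ s, s = T + 1 := ⟨_, rfl⟩
  rw [← hsd] at hcard hch hs
  obtain ⟨P, hP⟩ : ∃ P, P = n.choose l * 2 ^ (n - l) := ⟨_, rfl⟩
  rw [← hP] at hpos
  have h1 : P * (n - l) ^ s ≤ P * (m * (8 * (T * l)) ^ s) := by
    calc P * (n - l) ^ s = (n.choose l * 2 ^ (n - l)) * (n - l) ^ s := by rw [hP]
      _ ≤ (m * (n.choose (l - s) * (2 ^ (n - l) * 2 ^ s) * (4 * T) ^ s)) * (n - l) ^ s :=
          Nat.mul_le_mul_right _ hcard
      _ = (m * (2 ^ (n - l) * (8 * T) ^ s)) * (n.choose (l - s) * (n - l) ^ s) := by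
          rw [show 8 * T = 2 * (4 * T) by ring, mul_pow 2 (4 * T)]
          ring
      _ ≤ (m * (2 ^ (n - l) * (8 * T) ^ s)) * (n.choose l * l ^ s) := Nat.mul_le_mul_left _ hch
      _ = P * (m * (8 * (T * l)) ^ s) := by
          rw [hP, show 8 * (T * l) = 8 * T * l by ring, mul_pow (8 * T) l]
          ring
  have h2 : (n - l) ^ s ≤ m * (8 * (T * l)) ^ s := Nat.le_of_mul_le_mul_left h1 hpos
  have h3 : m * (8 * (T * l)) ^ s < (n - l) ^ s := by
    have hTl0 : 0 < T * l := by omega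
    calc m * (8 * (T * l)) ^ s ≤ 4 ^ T * (8 * (T * l)) ^ s := Nat.mul_le_mul_right _ hm
      _ < 4 ^ s * (8 * (T * l)) ^ s := by
          apply Nat.mul_lt_mul_of_pos_right
          · exact Nat.pow_lt_pow_right (by norm_num) (by omega)
          · exact pow_pos (by omega) _
      _ = (4 * (8 * (T * l))) ^ s := (mul_pow 4 _ s).symm
      _ ≤ (n - l) ^ s := Nat.pow_le_pow_left (by omega) _
  omega

end Pool.Agent.FU3.H48
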